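import Mathlib

/-!
# Alternating paths covering one side of a red-blue bipartite graph: a counterexample

The Hall-type condition `|N^{RB}(X)| ≥ |X| - 1` for all `X ⊆ A` does not imply that a bipartite
graph with parts `A`, `B` and a red/blue colouring of its edges has an alternating path covering
`A`.  The counterexample has `|A| = 4` and `|B| = 3`.
-/

namespace Pool.Agent.Results.MP_9cf868_co.SevenVertices

/-- The set `N^{RB}(X)` of the vertices which are joined to some vertex of `X` by a red edge and to
some vertex of `X` by a blue edge.  The edges of `G` in the set `red` are red, the other edges of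
`G` are blue. -/
def NRB {V : Type*} (G : SimpleGraph V) (red : Set (Sym2 V)) (X : Set V) : Set V :=
  {v | (∃ x ∈ X, G.Adj x v ∧ s(x, v) ∈ red) ∧ ∃ x ∈ X, G.Adj x v ∧ s(x, v) ∉ red}

/-- The list `l` is an alternating path of `G`: its terms are distinct, consecutive terms are
adjacent, and of two consecutive edges exactly one is red. -/
def AltPath {V : Type*} (G : SimpleGraph V) (red : Set (Sym2 V)) (l : List V) : Prop :=
  l.Nodup ∧ l.IsChain G.Adj ∧
    ∀ (i : ℕ) (h : i + 2 < l.length), s(l[i], l[i + 1]) ∈ red ↔ s(l[i + 1], l[i + 2]) ∉ red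

/-- the red edges -/
def redE : List (Fin 7 × Fin 7) := [(0, 4), (0, 5), (2, 5), (1, 6), (2, 6)]

/-- the blue edges -/
def blueE : List (Fin 7 × Fin 7) := [(1, 4), (1, 5), (3, 5), (0, 6), (3, 6)]

/-- red or not, as a Boolean -/
def isRed (a b : Fin 7) : Bool := (a, b) ∈ redE ∨ (b, a) ∈ redE

/-- blue or not, as a Boolean -/
def isBlue (a b : Fin 7) : Bool := (a, b) ∈ blueE ∨ (b, a) ∈ blueE

/-- the graph -/
def Gr : SimpleGraph (Fin 7) where
  Adj a b := isRed a b = true ∨ isBlue a b = true
  symm := ⟨by decide⟩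
  loopless := ⟨by decide⟩

instance : DecidableRel Gr.Adj := fun a b =>
  inferInstanceAs (Decidable (isRed a b = true ∨ isBlue a b = true))

/-- the set of the red pairs -/
def Rd : Set (Sym2 (Fin 7)) := {e | ∃ a b : Fin 7, e = s(a, b) ∧ isRed a b = true}

theorem isRed_symm : ∀ a b : Fin 7, isRed a b = isRed b a := by decide

theorem mem_Rd (a b : Fin 7) : s(a, b) ∈ Rd ↔ isRed a b = true := by
  constructor
  · rintro ⟨c, d, h, hr⟩
    rcases Sym2.eq_iff.1 h with ⟨rfl, rfl⟩ | ⟨rfl, rfl⟩
    · exact hr
    · rw [isRed_symm]; exact hr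
  · intro h
    exact ⟨a, b, rfl, h⟩

instance (a b : Fin 7) : Decidable (s(a, b) ∈ Rd) :=
  decidable_of_iff _ (mem_Rd a b).symm

/-- the first condition on a list which begins with `x` -/
def okHead (x : Fin 7) : List (Fin 7) → Bool
  | [] => true
  | y :: l => decide (Gr.Adj x y) && !(decide (x ∈ y :: l)) &&
      match l with
      | [] => true
      | z :: _ => isRed x y != isRed y z

/-- all alternating paths with `k + 1` vertices -/
def paths : ℕ → List (List (Fin 7))
  | 0 => (List.finRange 7).map (fun x => [x])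
  | k + 1 => (paths k).flatMap
      (fun l => ((List.finRange 7).filter (fun x => okHead x l)).map (fun x => x :: l))

theorem altPath_tail {x : Fin 7} {l : List (Fin 7)} (h : AltPath Gr Rd (x :: l)) :
    AltPath Gr Rd l := by
  obtain ⟨h1, h2, h3⟩ := h
  refine ⟨(List.nodup_cons.1 h1).2, h2.tail, ?_⟩
  intro i hi
  have := h3 (i + 1) (by simp only [List.length_cons]; omega)
  simpa using this

theorem okHead_of {x : Fin 7} {l : List (Fin 7)} (h : AltPath Gr Rd (x :: l)) :
    okHead x l = true := by
  obtain ⟨h1, h2, h3⟩ := h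
  cases l with
  | nil => rfl
  | cons y l =>
    have hadj : Gr.Adj x y := by
      have := List.isChain_cons_cons.1 h2
      exact this.1
    have hx : x ∉ y :: l := (List.nodup_cons.1 h1).1
    cases l with
    | nil =>
      simp only [okHead, Bool.and_true, Bool.and_eq_true, decide_eq_true_eq, Bool.not_eq_true']
      exact ⟨hadj, by simpa using hx⟩
    | cons z l =>
      have h4 := h3 0 (by simp)
      simp only [List.getElem_cons_zero, List.getElem_cons_succ, zero_add] at h4
      rw [mem_Rd, mem_Rd] at h4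
      simp only [okHead, Bool.and_eq_true, decide_eq_true_eq, Bool.not_eq_true',
        bne_iff_ne, ne_eq]
      refine ⟨⟨hadj, by simpa using hx⟩, ?_⟩
      intro h5
      rw [h5] at h4
      cases hh : isRed y z <;> simp [hh] at h4

theorem mem_paths : ∀ (k : ℕ) (l : List (Fin 7)), l.length = k + 1 → AltPath Gr Rd l →
    l ∈ paths k := by
  intro k
  induction k with
  | zero =>
    intro l hl _
    obtain ⟨x, rfl⟩ := List.length_eq_one_iff.1 hl
    simp [paths]
  | succ k ih =>
    intro l hl h
    cases l with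
    | nil => simp at hl
    | cons x l =>
      have hl' : l.length = k + 1 := by simpa using hl
      have := ih l hl' (altPath_tail h)
      simp only [paths, List.mem_flatMap, List.mem_map, List.mem_filter]
      exact ⟨l, this, x, ⟨List.mem_finRange x, okHead_of h⟩, rfl⟩

/-- no alternating path contains the vertices `0, 1, 2, 3` -/
def check : Bool :=
  (List.range 7).all fun k => (paths k).all fun l =>
    !(decide ((0 : Fin 7) ∈ l) && decide ((1 : Fin 7) ∈ l) && decide ((2 : Fin 7) ∈ l) &&
      decide ((3 : Fin 7) ∈ l))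

theorem check_eq : check = true := by
  decide +kernel

theorem paths_check (k : ℕ) (hk : k < 7) (l : List (Fin 7)) (hl : l ∈ paths k) :
    ¬ (0 ∈ l ∧ 1 ∈ l ∧ 2 ∈ l ∧ 3 ∈ l) := by
  have h := check_eq
  simp only [check, List.all_eq_true] at h
  have h2 := h k (List.mem_range.2 hk) l hl
  rintro ⟨h0, h1, h2', h3⟩
  simp [h0, h1, h2', h3] at h2

theorem bip : ∀ a b : Fin 7, Gr.Adj a b →
    (a ∈ ({0, 1, 2, 3} : Finset (Fin 7)) ↔ b ∉ ({0, 1, 2, 3} : Finset (Fin 7))) := by
  decide

/-- a computable form of `NRB` -/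
def NB (X : Finset (Fin 7)) : Finset (Fin 7) :=
  Finset.univ.filter (fun v => (∃ x ∈ X, Gr.Adj x v ∧ isRed x v = true) ∧
    ∃ x ∈ X, Gr.Adj x v ∧ isRed x v = false)

set_option maxRecDepth 100000 in
theorem hall : ∀ X ∈ ({0, 1, 2, 3} : Finset (Fin 7)).powerset, X.card ≤ (NB X).card + 1 := by
  decide +kernel

theorem NRB_eq (X : Finset (Fin 7)) : NRB Gr Rd (X : Set (Fin 7)) = (NB X : Set (Fin 7)) := by
  ext v
  simp only [NRB, Set.mem_ofPred_eq, Finset.mem_coe, NB, Finset.mem_filter, Finset.mem_univ,
    true_and, mem_Rd, Bool.not_eq_true]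

/-- **Q1 is false.**  There are a finite simple graph `G`, bipartite with parts `A` and its
complement, and a set `red` of red edges, all other edges being blue, such that
`|N^{RB}(X)| ≥ |X| - 1` for all `X ⊆ A`, although no alternating path covers `A`. -/
theorem result :
    ∃ (V : Type) (_ : Fintype V) (G : SimpleGraph V) (red : Set (Sym2 V)) (A : Set V),
      (∀ a b, G.Adj a b → (a ∈ A ↔ b ∉ A)) ∧
      (∀ X : Set V, X ⊆ A → (X.ncard : ℤ) - 1 ≤ ((NRB G red X).ncard : ℤ)) ∧
      ¬ ∃ l : List V, AltPath G red l ∧ ∀ a ∈ A, a ∈ l := by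
  classical
  refine ⟨Fin 7, inferInstance, Gr, Rd, (({0, 1, 2, 3} : Finset (Fin 7)) : Set (Fin 7)),
    ?_, ?_, ?_⟩
  · intro a b h
    exact_mod_cast bip a b h
  · intro X hX
    have hfin : X.Finite := Set.toFinite X
    obtain ⟨Y, rfl⟩ : ∃ Y : Finset (Fin 7), (Y : Set (Fin 7)) = X := ⟨hfin.toFinset, hfin.coe_toFinset⟩
    rw [NRB_eq, Set.ncard_coe_finset, Set.ncard_coe_finset]
    have hY : Y ∈ ({0, 1, 2, 3} : Finset (Fin 7)).powerset := by
      rw [Finset.mem_powerset]
      exact_mod_cast hX
    have := hall Y hY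
    omega
  · rintro ⟨l, hl, hc⟩
    have hlen : l.length ≤ 7 := by
      have := List.Nodup.length_le_card hl.1
      simpa using this
    have hne : 0 < l.length := by
      have := hc 0 (by simp)
      exact List.length_pos_of_mem this
    have hm := mem_paths (l.length - 1) l (by omega) hl
    exact paths_check (l.length - 1) (by omega) l hm
      ⟨hc 0 (by simp), hc 1 (by simp), hc 2 (by simp), hc 3 (by simp)⟩

end Pool.Agent.Results.MP_9cf868_co.SevenVertices
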